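import Pool.Agent.P.MP_d66c6d_pr.G.Defs
import Pool.Agent.P.MP_d66c6d_pr.S.Dense

/-!
The outputs of the chapters on uniformity, subcriticality and structure.
The owner of each chapter completes the dependency line of his statement.
-/

namespace Pool.Agent.P.MP_d66c6d_pr

open MeasureTheory ProbabilityTheory Set Metric Filter Topology
open scoped ENNReal

-- deps: SUPT ONEK DQF PAC RHO RJ UM PPO MUK
/-- Uniform conditional smallness. -/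
def S_UCS : Prop := ∀ ν : Measure Br, IsBridge ν → ∃ (κ L : ℝ) (β : Measure TP), 1 < κ ∧
  Str ν L β ∧ UCS ν κ L β

-- deps: SUBX BLOB SUBQ JN MUK PPO
/-- Subcriticality: small clusters, with tails smaller than any power. -/
def S_SUB : Prop := ∀ ν : Measure Br, IsBridge ν → ∀ c θ : ℝ, 0 < c → Lvl ν c θ →
  (∀ R : ℝ, ∀ᵐ S ∂soup ν c (ball 0 R), Tame (sets S) ∧ SubT (sets S)) ∧
  ∀ A : ℝ, ∃ C : ℝ, ∀ (z : ℂ) (η s : ℝ), 0 < η → 1 ≤ s →
    PP (ENNReal.ofReal c • (muK ν).restrict (bigK η)ᶜ)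
      {S | Joins (sets S) (closedBall z η) (ball z (s * η))ᶜ} ≤ ENNReal.ofReal (C * s ^ (-A))

-- deps: TRF BAS COVA LOWX PEI PPO MUK
/-- The exponent is larger than one. -/
def S_TH1 : Prop := ∀ ν : Measure Br, IsBridge ν → ∀ c θ c₂ θ₂ : ℝ, 0 < c → c < c₂ → c₂ ≤ 1 →
  Lvl ν c θ → Lvl ν c₂ θ₂ → 1 < θ

-- deps: LAYT SUBX JOR NC LVA LVB HQD HQL HITL PPO MUK REV
/-- The almost sure structure of the levels of a soup in a Jordan domain. -/
def S_LAY : Prop := ∀ ν : Measure Br, IsBridge ν → ∀ c₀ c₁ c₂ θ : ℝ, 0 < c₀ → c₀ < c₁ →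
  c₁ < c₂ → c₂ ≤ 1 → Lvl ν c₂ θ → ∀ (V : Set ℂ) (R : ℝ), IsJordan V → V ⊆ ball 0 R →
  ∀ᵐ p ∂(PP (ENNReal.ofReal c₀ • loopMeasure ν)).prod (xsoup ν c₀ R),
    Lay V (lay V p.1 p.2) c₀ c₁

end Pool.Agent.P.MP_d66c6d_pr
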