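import Pool.Agent.P.MP_d66c6d_pr.Defs2
import Pool.Agent.P.MP_d66c6d_pr.F.Defs
import Pool.Agent.P.MP_d66c6d_pr.U.Defs

/-!
Free paths, covering numbers, local functionals, admissible models and structure of soups.
-/

namespace Pool.Agent.P.MP_d66c6d_pr

open MeasureTheory ProbabilityTheory Set Metric Filter Topology
open scoped ENNReal

/-! ### Levels -/

/-- `θ` is the distance exponent of a whole-plane CLE of intensity `c`. -/
def Lvl (ν : Measure Br) (c θ : ℝ) : Prop :=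
  ∃ (Ω : Type) (_ : MeasurableSpace Ω) (_ : StandardBorelSpace Ω) (P : Measure Ω)
    (Γ : Ω → Set (Set ℂ)) (κ : ℝ), intensity κ = ENNReal.ofReal c ∧ IsCLE ν κ P Γ ∧
    IsDistExp P (fun ω => firstCarpet (Γ ω)) θ

/-- `Θ c` is the distance exponent at every level `c < 1 / 2`. -/
def AllL (ν : Measure Br) (Θ : ℝ → ℝ) : Prop := ∀ c ∈ Ioo (0 : ℝ) (1 / 2), Lvl ν c (Θ c)

/-- The normalisation `a` varies regularly with index `θ`, up to a constant. -/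
def Nrm (a : ℝ → ℝ) (θ : ℝ) : Prop :=
  (∀ ε > 0, 0 < a ε) ∧ ∃ t₀ : ℝ, 1 ≤ t₀ ∧
    (∀ M : ℝ, 1 ≤ M → ∃ ε₀ > (0 : ℝ), ∀ ε ∈ Ioo 0 ε₀,
      M ^ θ * a ε ≤ t₀ * a (ε / M) ∧ a (ε / M) ≤ t₀ * (M ^ θ * a ε)) ∧
    ∃ ε₁ > (0 : ℝ), ∀ ε ∈ Ioo 0 ε₁, 1 ≤ t₀ * a ε ∧ a ε ≤ t₀ / ε ^ 2

/-! ### Free paths -/

/-- `A` is covered by at most `t` discs of radius `ε`. -/
def Cov (ε t : ℝ) (A : Set ℂ) : Prop :=
  ∃ Z : Finset ℂ, (Z.card : ℝ) ≤ t ∧ A ⊆ ⋃ z ∈ Z, ball z ε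

/-- The union of the members of diameter at least `ξ`. -/
def TT (ξ : ℝ) (T : Set (Set ℂ)) : Set ℂ := ⋃₀ {K ∈ T | ξ ≤ diam K}

/-- The open set left free by the members of diameter at least `ξ`. -/
def Free (ξ : ℝ) (T : Set (Set ℂ)) : Set ℂ := (closure (TT ξ T))ᶜ

/-- The members contained in `V`. -/
def ins (V : Set ℂ) (T : Set (Set ℂ)) : Set (Set ℂ) := {K ∈ T | K ⊆ V}

/-- `T` and `T'` look the same in `O` at all resolutions up to `ξ₀`. -/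
def Same (O : Set ℂ) (ξ₀ : ℝ) (T T' : Set (Set ℂ)) : Prop :=
  ∀ ξ, 0 < ξ → ξ ≤ ξ₀ → TT ξ T ∩ O = TT ξ T' ∩ O

/-- The points of the disc that are joined to the target `A` inside `G`. -/
def Arm (G A : Set ℂ) (z : ℂ) (r : ℝ) : Set ℂ := {y ∈ ball z r | ∃ w ∈ A, JoinedIn G y w}

/-- The points joined to `D` inside `G` by a path covered by `d` discs of radius `ε`. -/
def Reach (G : Set ℂ) (ε d : ℝ) (D : Set ℂ) : Set ℂ :=
  {y | ∃ γ : Br, γ 0 = y ∧ γ 1 ∈ D ∧ range γ ⊆ G ∧ Cov ε d (range γ)}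

/-- The points with an arm in `G'` are covered by sets of small cost radius in `G`, of total
weight at most `t`. -/
def Zat (G G' A : Set ℂ) (z : ℂ) (r ε t : ℝ) : Prop :=
  ∃ (k : ℕ) (x : Fin k → ℂ) (ρ : Fin k → ℝ) (d : Fin k → ℕ), ∑ i, ((d i : ℝ) + 1) ≤ t ∧
    (∀ i, 0 ≤ ρ i ∧ ρ i < ε ∧ closedBall (x i) (ρ i) ⊆ G ∩ ball z (5 / 4 * r)) ∧
    Arm G' A z r ⊆
      ⋃ i, closure (Reach (G ∩ ball z (5 / 4 * r)) ε (d i) (closedBall (x i) (ρ i)))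

/-- The connection cost with arms to the target `A` is at most `t`. -/
def ZleA (T : Set (Set ℂ)) (A : Set ℂ) (z : ℂ) (r ε t : ℝ) : Prop :=
  ∀ ξ > (0 : ℝ), ∃ ξ' > (0 : ℝ), Zat (Free ξ T) (Free ξ' T) A z r ε t

/-- The local connection cost in the disc of centre `z` and radius `r` is at most `t`. -/
def Zle (T : Set (Set ℂ)) (z : ℂ) (r ε t : ℝ) : Prop :=
  ZleA T (ball z (31 / 20 * r))ᶜ z r ε t

/-- All points with a local arm are within cost `t` of one small disc. -/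
def Zone (T : Set (Set ℂ)) (z : ℂ) (r ε t : ℝ) : Prop :=
  ∀ ξ > (0 : ℝ), ∃ ξ' > (0 : ℝ), ∃ (x : ℂ) (ρ : ℝ), 0 ≤ ρ ∧ ρ < ε ∧
    closedBall x ρ ⊆ Free ξ T ∩ ball z (5 / 4 * r) ∧
    Arm (Free ξ' T) (ball z (31 / 20 * r))ᶜ z r ⊆
      closure (Reach (Free ξ T ∩ ball z (5 / 4 * r)) ε t (closedBall x ρ))

/-- The path crosses the annulus of radii `r / 2` and `31 r / 20`. -/
def CrsG (z : ℂ) (r : ℝ) (γ : Br) : Prop :=
  γ 0 ∈ closedBall z (r / 2) ∧ γ 1 ∉ ball z (31 / 20 * r)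

/-- The crossing cost of the annulus is at most `t`. -/
def Nle (T : Set (Set ℂ)) (z : ℂ) (r ε t : ℝ) : Prop :=
  ∀ ξ > (0 : ℝ), ∃ γ : Br, CrsG z r γ ∧ range γ ⊆ Free ξ T ∧ Cov ε t (range γ)

/-- In the annulus of radii `r` and `5 r / 4` the path stays `δ`-close to the big members. -/
def Hug (T : Set (Set ℂ)) (z : ℂ) (r δ : ℝ) (γ : Br) : Prop :=
  ∀ s, r ≤ dist (γ s) z → dist (γ s) z ≤ 5 / 4 * r → γ s ∈ thickening δ (TT (r / 25) T)

/-- A free crossing hugs the big members. -/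
def BB (T : Set (Set ℂ)) (z : ℂ) (r δ : ℝ) : Prop :=
  ∀ ξ > (0 : ℝ), ∃ γ : Br, CrsG z r γ ∧ range γ ⊆ Free ξ T ∧ Hug T z r δ γ

/-- Global crossing cost: a free path from the disc of radius `1 / 2` to the target `A` whose part
in the disc of radius `5 / 4` is cheap. -/
def NleA (T : Set (Set ℂ)) (A : Set ℂ) (ε t : ℝ) : Prop :=
  ∀ ξ > (0 : ℝ), ∃ γ : Br, γ 0 ∈ closedBall (0 : ℂ) (1 / 2) ∧ γ 1 ∈ A ∧ range γ ⊆ Free ξ T ∧
    Cov ε t (range γ ∩ closedBall 0 (5 / 4))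

/-- Global hugging event. -/
def BBA (T : Set (Set ℂ)) (A : Set ℂ) (δ : ℝ) : Prop :=
  ∀ ξ > (0 : ℝ), ∃ γ : Br, γ 0 ∈ closedBall (0 : ℂ) (1 / 2) ∧ γ 1 ∈ A ∧ range γ ⊆ Free ξ T ∧
    Hug T 0 1 δ γ

/-- No member encloses the disc of radius `ρ` inside the disc of radius `9 ρ`. -/
def NoC (T : Set (Set ℂ)) (z : ℂ) (ρ : ℝ) : Prop :=
  ∀ K ∈ T, ¬ closedBall z ρ ⊆ fill (K ∩ closedBall z (9 * ρ))

/-- The centre of the grid disc `x` of the scale `r`. -/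
noncomputable def gpG (r : ℝ) (x : ℤ × ℤ) : ℂ :=
  ((r / 2 : ℝ) : ℂ) * ((x.1 : ℂ) + (x.2 : ℂ) * Complex.I)

/-! ### Local and outside events, admissible models -/

/-- An event that depends only on the traces in the disc of radius `2 r`. -/
def LocE (z : ℂ) (r : ℝ) (E : Set (Cfg KC)) : Prop :=
  MeasurableSet E ∧ ∀ S S' : Cfg KC, Same (ball z (2 * r)) (r / 25) (sets S) (sets S') →
    S ∈ E → S' ∈ E

/-- Every member of `T` that leaves the disc of radius `10 ρ` has a partner in `T'` with the same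
part outside this disc. -/
def OLe (z : ℂ) (ρ : ℝ) (T T' : Set (Set ℂ)) : Prop :=
  ∀ K ∈ T, ¬ K ⊆ ball z (10 * ρ) → ∃ K' ∈ T', K \ ball z (10 * ρ) = K' \ ball z (10 * ρ) ∧
    (K = K' ∨ ((K ∩ closedBall z (10 * ρ)).Nonempty ∧ (K' ∩ closedBall z (10 * ρ)).Nonempty))

/-- An event that depends only on the traces outside the disc of radius `10 ρ`. -/
def OutE (z : ℂ) (ρ : ℝ) (F : Set (Cfg KC)) : Prop :=
  MeasurableSet F ∧ ∀ S S' : Cfg KC, OLe z ρ (sets S) (sets S') → OLe z ρ (sets S') (sets S) →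
    S ∈ F → S' ∈ F

/-- Admissible intensities: loops in a bounded open set that contains the disc of radius `10 ρ`,
density between `c` and `κ c`, equal to `c` for loops of diameter less than `lam ρ`. -/
def Adm (ν : Measure Br) (κ c lam : ℝ) (z : ℂ) (ρ : ℝ) (m : Measure KC) : Prop :=
  ∃ (V : Set ℂ) (f : KC → ℝ≥0∞), IsOpen V ∧ Bornology.IsBounded V ∧
    closedBall z (10 * ρ) ⊆ V ∧ Measurable f ∧
    (∀ K, ENNReal.ofReal c ≤ f K ∧ f K ≤ ENNReal.ofReal (κ * c)) ∧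
    (∀ K : KC, diam (K : Set ℂ) < lam * ρ → f K = ENNReal.ofReal c) ∧
    m = ((muK ν).restrict (inK V)).withDensity f

/-- The event `E` has conditional probability at most `p` given the outside, in the absence of
enclosing loops, in every admissible model. -/
def Rare (ν : Measure Br) (κ c lam L : ℝ) (z : ℂ) (r : ℝ) (E : Set (Cfg KC)) (p : ℝ≥0∞) : Prop :=
  ∀ m, Adm ν κ c lam z (L * r) m → ∀ F, OutE z (L * r) F →
    PP m (E ∩ {S | NoC (sets S) z (L * r)} ∩ F) ≤ p * PP m F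

/-- The soup of intensity `c` in `U`. -/
noncomputable def soup (ν : Measure Br) (c : ℝ) (U : Set ℂ) : Measure (Cfg KC) :=
  PP (ENNReal.ofReal c • (muK ν).restrict (inK U))

/-- The traces of a family of timed paths. -/
def arcs {n : ℕ} (η : Fin n → TP) : Cfg KC := Cfg.rng fun i => trB (η i).2

/-- The reference measure: the soup in the disc of radius `10 L` and `n` free strands. -/
noncomputable def refM (ν : Measure Br) (c L : ℝ) (β : Measure TP) (n : ℕ) : Measure (Cfg KC) :=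
  ((soup ν c (ball 0 (10 * L))).prod (Measure.pi fun _ : Fin n => β)).map
    fun q => q.1 ∪ arcs q.2

/-- The law of the reference strands. -/
structure Str (ν : Measure Br) (L : ℝ) (β : Measure TP) : Prop where
  ten : 10 ≤ L
  fin : IsFiniteMeasure β
  ac : β ≪ GR ν
  ends : ∀ᵐ p ∂β, p.2 0 ∉ closedBall (0 : ℂ) 2 ∧ p.2 1 ∉ closedBall (0 : ℂ) 2

/-- Uniform conditional smallness for the constants `κ`, `L` and the strand law `β`. -/
def UCS (ν : Measure Br) (κ L : ℝ) (β : Measure TP) : Prop :=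
  ∀ lam > (0 : ℝ), ∀ p : ℝ≥0∞, p ≠ 0 → ∃ (δ : ℝ≥0∞) (N : ℕ), δ ≠ 0 ∧ ∀ c ∈ Ioc (0 : ℝ) 1,
    ∀ E, LocE 0 1 E → (∀ n ≤ N, refM ν c L β n E ≤ δ) → Rare ν κ c lam L 0 1 E p

/-- The intensity of the labelled soup: label `c₀` for the loops of the level `c₀`, uniform labels
above. -/
noncomputable def muL2 (c₀ : ℝ) (m : Measure KC) : Measure (KC × ℝ) :=
  (ENNReal.ofReal c₀ • m).map (fun K => (K, c₀)) +
    m.prod ((volume : Measure ℝ).restrict (Ioc c₀ 1))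

/-- The labelled soup in the disc of radius `R`. -/
noncomputable def lsoup (ν : Measure Br) (c₀ R : ℝ) : Measure (Cfg (KC × ℝ)) :=
  PP (muL2 c₀ ((muK ν).restrict (inK (ball 0 R))))

/-- The extra loops, with labels above `c₀`, in the disc of radius `R`. -/
noncomputable def xsoup (ν : Measure Br) (c₀ R : ℝ) : Measure (Cfg (KC × ℝ)) :=
  PP (((muK ν).restrict (inK (ball 0 R))).prod ((volume : Measure ℝ).restrict (Ioc c₀ 1)))

/-- The loops in `V` of the level `c`, from rooted loops `N` and extra loops `X`. -/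
def lay (V : Set ℂ) (N : Cfg Lp) (X : Cfg (KC × ℝ)) (c : ℝ) : Set (Set ℂ) :=
  ins V (trace '' N.pts ∪ sets (lev c X))

/-- The family `𝒯` of completions of the local configuration `X`. -/
structure Compl (R : ℝ) (X : Set (Set ℂ)) {J : ℕ} (𝒯 : Fin J → Set (Set ℂ)) : Prop where
  same : ∀ i, Same (ball 0 (13 / 10)) (1 / 25) X (𝒯 i)
  near : ∀ i, ∀ K ∈ 𝒯 i, (K ∩ closedBall 0 2).Nonempty → K ⊆ ball 0 3
  arm : ∀ ξ > (0 : ℝ), ∃ ξ' > (0 : ℝ), ∀ γ : Br, γ 0 ∈ ball (0 : ℂ) (13 / 10) →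
    γ 1 ∉ ball (0 : ℂ) (31 / 20) → range γ ⊆ Free ξ' X → ∃ i, ∃ γ' : Br, γ' 0 = γ 0 ∧
      γ' 1 ∉ ball (0 : ℂ) R ∧ range γ' ⊆ Free ξ (𝒯 i) ∧
      range γ' ∩ closedBall 0 (13 / 10) ⊆ range γ

/-! ### Carpets -/

/-- The carpet of the soup `T` in `V`. -/
def carp (T : Set (Set ℂ)) (V : Set ℂ) : Set ℂ := closure V \ ⋃₀ cleIn2 T V

/-- Close points of `X` are joined by short and cheap paths. -/
def XU (X : Set ℂ) (a : ℝ → ℝ) (e : ℕ → ℝ) : Prop :=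
  ∀ ρ > (0 : ℝ), ∃ s > (0 : ℝ), ∃ (C : ℝ) (j₀ : ℕ), ∀ j ≥ j₀, ∀ x ∈ X, ∀ y ∈ X, dist x y < s →
    ∃ γ : Br, γ 0 = x ∧ γ 1 = y ∧ range γ ⊆ X ∩ ball x ρ ∧ Cov (e j) (C * a (e j)) (range γ)

/-- Long paths of `X` are expensive. -/
def XL (X : Set ℂ) (a : ℝ → ℝ) (e : ℕ → ℝ) : Prop :=
  ∀ ρ > (0 : ℝ), ∃ τ > (0 : ℝ), ∃ j₀ : ℕ, ∀ j ≥ j₀, ∀ γ : Br, range γ ⊆ X →
    ρ ≤ dist (γ 0) (γ 1) → ¬ Cov (e j) (τ * a (e j)) (range γ)

/-- The good event of the carpet in `V`. -/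
def QG (V : Set ℂ) (T : Set (Set ℂ)) (a : ℝ → ℝ) (e : ℕ → ℝ) : Prop :=
  V ∈ cleIn2 T V ∨
    ((∀ W ∈ cleIn2 T V, IsJordan W) ∧ XU (carp T V) a e ∧ XL (carp T V) a e)

/-- The data extracted from the distance exponent at the level `c`. -/
def Dat (ν : Measure Br) (c : ℝ) (a : ℝ → ℝ) (R : ℝ) : Prop :=
  ∀ e : ℕ → ℝ, (∀ n, 0 < e n) → Tendsto e atTop (𝓝 0) → ∃ φ : ℕ → ℕ, StrictMono φ ∧
    ∀ τ : ℝ≥0∞, τ ≠ 0 → ∃ V, IsJordan V ∧ ball 0 3 ⊆ V ∧ V ⊆ ball 0 R ∧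
      ∀ E : Set (Cfg Lp), MeasurableSet E → (∀ N ∈ E, ¬ QG V (trace '' N.pts) a (e ∘ φ)) →
        PP (ENNReal.ofReal c • loopMeasure ν) E ≤ τ

/-! ### Structure of soups -/

/-- Members are path-connected compact sets of positive diameter, finitely many are big. -/
def Tame (T : Set (Set ℂ)) : Prop :=
  (∀ K ∈ T, IsCompact K ∧ IsPathConnected K ∧ 0 < diam K) ∧
    ∀ ξ > (0 : ℝ), {K ∈ T | ξ ≤ diam K}.Finite

/-- Clusters of small members are small. -/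
def SubT (T : Set (Set ℂ)) : Prop :=
  ∀ ρ > (0 : ℝ), ∃ η > (0 : ℝ), ∀ K ∈ T, diam K < η →
    ∀ x ∈ K, ∀ y ∈ cluster {K' ∈ T | diam K' < η} K, dist x y ≤ ρ

/-- The closures of the clusters in `U` stay in `U`. -/
def NCl (T : Set (Set ℂ)) (U : Set ℂ) : Prop :=
  ∀ K ∈ T, K ⊆ U → closure (cluster (ins U T) K) ⊆ U

/-- The union of the clusters of `T` that meet `D`. -/
def clD (T : Set (Set ℂ)) (D : Set ℂ) : Set ℂ :=
  ⋃ K ∈ {K ∈ T | (K ∩ D).Nonempty}, cluster T K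

/-- After the exploration of the clusters of `T₀` that meet `D`, nothing of `T₁` touches them. -/
def EXD (T₀ T₁ : Set (Set ℂ)) (D : Set ℂ) : Prop :=
  (∀ A ∈ T₁, (A ∩ (D ∪ closure (clD T₀ D))).Nonempty → (A ∩ (D ∪ clD T₀ D)).Nonempty) ∧
  ∀ A ∈ T₁, Disjoint A (D ∪ closure (clD T₀ D)) →
    Disjoint (closure (cluster {B ∈ T₁ | Disjoint B (D ∪ closure (clD T₀ D))} A))
      (D ∪ closure (clD T₀ D))

/-- The part of a path between two times. -/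
def piece (γ : Br) (s t : ℝ) : Set ℂ := γ '' {u | s ≤ (u : ℝ) ∧ (u : ℝ) ≤ t}

/-- The path circles around its position at time `σ` at arbitrarily small later times. -/
def Circ (γ : Br) (σ : unitInterval) : Prop :=
  ∀ δ > (0 : ℝ), ∃ s t : ℝ, σ < s ∧ s < t ∧ t < σ + δ ∧ γ σ ∈ interior (fill (piece γ s t))

/-- After each rational time the path circles around the first point of `L` that it meets. -/
def HitQ (γ : Br) (L : Set ℂ) : Prop :=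
  ∀ q : ℚ, ∀ σ : unitInterval, (q : ℝ) ≤ σ → (σ : ℝ) < 1 → 0 ≤ q → γ σ ∈ L →
    (∀ u : unitInterval, (q : ℝ) ≤ u → u < σ → γ u ∉ L) → Circ γ σ

/-- The rational point of the plane and the rational radius coded by `q`. -/
def qp (q : ℚ × ℚ × ℚ) : ℂ := (q.1 : ℂ) + (q.2.1 : ℂ) * Complex.I

/-- The structure of a family of levels `T c`, `c₀ ≤ c ≤ c₁`, of loops in `V`. -/
structure Lay (V : Set ℂ) (T : ℝ → Set (Set ℂ)) (c₀ c₁ : ℝ) : Prop where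
  lt : c₀ < c₁
  sub : ∀ K ∈ T c₁, K ⊆ V
  mono : ∀ c c', c₀ ≤ c → c ≤ c' → c' ≤ c₁ → T c ⊆ T c'
  tame : Tame (T c₁)
  rc : ∀ ξ > (0 : ℝ), ∃ c' ∈ Ioc c₀ c₁, ∀ K ∈ T c', ξ ≤ diam K → K ∈ T c₀
  subc : SubT (T c₁)
  ncl : NCl (T c₀) V
  exd : ∀ q : ℚ × ℚ × ℚ, 0 < q.2.2 → closedBall (qp q) q.2.2 ⊆ V →
    EXD (T c₀) (T c₁) (closedBall (qp q) q.2.2)
  exl : ∀ q q' : ℚ × ℚ × ℚ, 0 < q'.2.2 → ball (qp q) q.2.2 ⊆ V →
    closedBall (qp q') q'.2.2 ⊆ ball (qp q) q.2.2 →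
    EXD (ins (ball (qp q) q.2.2) (T c₀)) (ins (ball (qp q) q.2.2) (T c₀))
      (closedBall (qp q') q'.2.2)
  hit : ∀ K ∈ T c₀, ∃ γ : Br, range γ = K ∧ γ 0 = γ 1 ∧ HitQ γ univ ∧
    ∀ q : ℚ × ℚ × ℚ, ¬ K ⊆ ball (qp q) q.2.2 → ∀ A ∈ ins (ball (qp q) q.2.2) (T c₀),
      HitQ γ (closure (cluster (ins (ball (qp q) q.2.2) (T c₀)) A))

/-! ### Elementary facts -/

theorem Cov.mono {ε ε' t t' : ℝ} {A B : Set ℂ} (h : Cov ε t B) (hε : ε ≤ ε') (ht : t ≤ t')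
    (hA : A ⊆ B) : Cov ε' t' A := by
  obtain ⟨Z, h1, h2⟩ := h
  exact ⟨Z, h1.trans ht, hA.trans (h2.trans
    (iUnion₂_mono fun z _ => ball_subset_ball hε))⟩

theorem Cov.union {ε t t' : ℝ} {A B : Set ℂ} (h : Cov ε t A) (h' : Cov ε t' B) :
    Cov ε (t + t') (A ∪ B) := by
  classical
  obtain ⟨Z, h1, h2⟩ := h
  obtain ⟨Z', h1', h2'⟩ := h'
  refine ⟨Z ∪ Z', ?_, ?_⟩
  · have : ((Z ∪ Z').card : ℝ) ≤ Z.card + Z'.card := by exact_mod_cast Finset.card_union_le Z Z'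
    linarith
  · rw [Finset.set_biUnion_union]
    exact union_subset_union h2 h2'

theorem cov_ball (z : ℂ) (ε : ℝ) : Cov ε 1 (ball z ε) := ⟨{z}, by simp, by simp⟩

theorem cov_empty (ε : ℝ) : Cov ε 0 ∅ := ⟨∅, by simp, by simp⟩

theorem Cov.nonneg {ε t : ℝ} {A : Set ℂ} (h : Cov ε t A) : 0 ≤ t :=
  h.choose_spec.1.trans' (Nat.cast_nonneg _)

theorem mem_TT {ξ : ℝ} {T : Set (Set ℂ)} {z : ℂ} :
    z ∈ TT ξ T ↔ ∃ K ∈ T, ξ ≤ diam K ∧ z ∈ K := by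
  simp only [TT, mem_sUnion, mem_ofPred_eq, and_assoc]

theorem TT_mono {ξ ξ' : ℝ} {T T' : Set (Set ℂ)} (h : ξ' ≤ ξ) (hT : T ⊆ T') :
    TT ξ T ⊆ TT ξ' T' :=
  sUnion_subset_sUnion fun _ hK => ⟨hT hK.1, h.trans hK.2⟩

theorem isOpen_Free (ξ : ℝ) (T : Set (Set ℂ)) : IsOpen (Free ξ T) := isClosed_closure.isOpen_compl

theorem Free_mono {ξ ξ' : ℝ} {T T' : Set (Set ℂ)} (h : ξ' ≤ ξ) (hT : T ⊆ T') :
    Free ξ' T' ⊆ Free ξ T :=
  compl_subset_compl.2 (closure_mono (TT_mono h hT))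

theorem Free.disjoint {ξ : ℝ} {T : Set (Set ℂ)} {K : Set ℂ} (hK : K ∈ T) (h : ξ ≤ diam K) :
    Disjoint (Free ξ T) K :=
  Set.disjoint_left.2 fun _ hz hz' => hz (subset_closure (mem_TT.2 ⟨K, hK, h, hz'⟩))

theorem Same.symm {O : Set ℂ} {ξ₀ : ℝ} {T T' : Set (Set ℂ)} (h : Same O ξ₀ T T') :
    Same O ξ₀ T' T := fun ξ h1 h2 => (h ξ h1 h2).symm

theorem Same.mono {O O' : Set ℂ} {ξ₀ ξ₁ : ℝ} {T T' : Set (Set ℂ)} (h : Same O ξ₀ T T')
    (hO : O' ⊆ O) (hξ : ξ₁ ≤ ξ₀) : Same O' ξ₁ T T' := fun ξ h1 h2 => by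
  rw [← inter_eq_right.2 hO, ← inter_assoc, ← inter_assoc, h ξ h1 (h2.trans hξ)]

theorem Same.free {O : Set ℂ} (hO : IsOpen O) {ξ₀ : ℝ} {T T' : Set (Set ℂ)} (h : Same O ξ₀ T T')
    {ξ : ℝ} (h1 : 0 < ξ) (h2 : ξ ≤ ξ₀) : Free ξ T ∩ O ⊆ Free ξ T' := by
  rintro z ⟨hz, hzO⟩ hz'
  have h3 : z ∈ closure (TT ξ T' ∩ O) := hO.closure_inter ⟨hz', hzO⟩
  rw [← h ξ h1 h2] at h3
  exact hz (closure_mono inter_subset_left h3)

theorem Tame.free {T : Set (Set ℂ)} (h : Tame T) {ξ : ℝ} (hξ : 0 < ξ) : Free ξ T = (TT ξ T)ᶜ := by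
  rw [Free, IsClosed.closure_eq]
  rw [TT, sUnion_eq_biUnion]
  exact Set.Finite.isClosed_biUnion (h.2 ξ hξ) fun K hK => (h.1 K hK.1).1.isClosed

theorem Tame.mono {T T' : Set (Set ℂ)} (h : Tame T') (hT : T ⊆ T') : Tame T :=
  ⟨fun K hK => h.1 K (hT hK), fun ξ hξ => (h.2 ξ hξ).subset fun _ hK => ⟨hT hK.1, hK.2⟩⟩

theorem joinedIn_iff_br {G : Set ℂ} {x y : ℂ} :
    JoinedIn G x y ↔ ∃ γ : Br, γ 0 = x ∧ γ 1 = y ∧ range γ ⊆ G := by
  constructor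
  · rintro ⟨γ, h⟩
    exact ⟨γ.toContinuousMap, γ.source, γ.target, range_subset_iff.2 h⟩
  · rintro ⟨γ, h0, h1, h⟩
    exact ⟨⟨γ, h0, h1⟩, range_subset_iff.1 h⟩

/-- Concatenation of two paths, as far as end points and traces are concerned. -/
theorem exists_br_trans {α β : Br} (h : α 1 = β 0) :
    ∃ γ : Br, γ 0 = α 0 ∧ γ 1 = β 1 ∧ range γ = range α ∪ range β := by
  let a : Path (α 0) (α 1) := ⟨α, rfl, rfl⟩
  let b : Path (α 1) (β 1) := ⟨β, h.symm, rfl⟩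
  exact ⟨(a.trans b).toContinuousMap, (a.trans b).source, (a.trans b).target, a.trans_range b⟩

/-- Reversal of a path, as far as end points and traces are concerned. -/
theorem exists_br_symm (α : Br) : ∃ γ : Br, γ 0 = α 1 ∧ γ 1 = α 0 ∧ range γ = range α := by
  let a : Path (α 0) (α 1) := ⟨α, rfl, rfl⟩
  exact ⟨a.symm.toContinuousMap, a.symm.source, a.symm.target, a.symm_range⟩

/-- The part of a path between two times, as a path. -/
theorem exists_br_piece (α : Br) {s t : unitInterval} (h : s ≤ t) :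
    ∃ γ : Br, γ 0 = α s ∧ γ 1 = α t ∧ range γ = α '' Icc s t := by
  refine ⟨α.comp ⟨fun u => ⟨s + u * (t - s), ?_, ?_⟩, by fun_prop⟩, by simp, by simp, ?_⟩
  · have := mul_nonneg u.2.1 (sub_nonneg.2 (show (s : ℝ) ≤ t from h))
    linarith [s.2.1]
  · have := mul_le_of_le_one_left (sub_nonneg.2 (show (s : ℝ) ≤ t from h)) u.2.2
    linarith [t.2.2]
  · ext z
    constructor
    · rintro ⟨u, rfl⟩
      refine ⟨_, ⟨?_, ?_⟩, rfl⟩
      · have := mul_nonneg u.2.1 (sub_nonneg.2 (show (s : ℝ) ≤ t from h))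
        change (s : ℝ) ≤ s + u * (t - s)
        linarith
      · have := mul_le_of_le_one_left (sub_nonneg.2 (show (s : ℝ) ≤ t from h)) u.2.2
        change (s : ℝ) + u * (t - s) ≤ t
        linarith
    · rintro ⟨u, ⟨h1, h2⟩, rfl⟩
      rcases eq_or_lt_of_le h with h3 | h3
      · refine ⟨0, ?_⟩
        have : u = s := le_antisymm (h3 ▸ h2) h1
        simp [this]
      · have h4 : (0 : ℝ) < t - s := sub_pos.2 h3
        have h5 : (s : ℝ) ≤ u := h1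
        have h6 : (u : ℝ) ≤ t := h2
        refine ⟨⟨(u - s) / (t - s), div_nonneg (by linarith) h4.le,
          (div_le_one h4).2 (by linarith)⟩, ?_⟩
        simp only [ContinuousMap.comp_apply, ContinuousMap.coe_mk]
        congr 1
        ext
        simp only
        field_simp
        ring

theorem sets_res_inK (V : Set ℂ) (S : Cfg KC) : sets (S.res (inK V)) = ins V (sets S) := by
  ext A
  constructor
  · rintro ⟨K, ⟨h1, h2⟩, rfl⟩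
    exact ⟨⟨K, h1, rfl⟩, h2⟩
  · rintro ⟨⟨K, h1, rfl⟩, h2⟩
    exact ⟨K, ⟨h1, h2⟩, rfl⟩

@[simp] theorem sets_union (S S' : Cfg KC) : sets (S ∪ S') = sets S ∪ sets S' := image_union _ _ _

@[fun_prop] theorem measurable_arcs {n : ℕ} : Measurable (arcs : (Fin n → TP) → Cfg KC) :=
  measurable_rng.comp (measurable_pi_lambda _ fun i =>
    Measurable.trB' (measurable_pi_apply i).snd)

instance instProbSoup (ν : Measure Br) (c : ℝ) (U : Set ℂ) : IsProbabilityMeasure (soup ν c U) :=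
  instProbPP _

instance instProbLsoup (ν : Measure Br) (c R : ℝ) : IsProbabilityMeasure (lsoup ν c R) :=
  instProbPP _

instance instProbXsoup (ν : Measure Br) (c R : ℝ) : IsProbabilityMeasure (xsoup ν c R) :=
  instProbPP _

end Pool.Agent.P.MP_d66c6d_pr
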