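import Pool.Agent.P.MP_d66c6d_pr.G.Defs
import Pool.Agent.P.MP_d66c6d_pr.S.Defs

/-!
Skeletons, obstacles, holes, events and the properties of a level.
-/

namespace Pool.Agent.P.MP_d66c6d_pr

open MeasureTheory ProbabilityTheory Set Metric Filter Topology
open scoped ENNReal

/-! ### Deterministic notions -/

/-- All members are compact. -/
def Cpt (T : Set (Set ℂ)) : Prop := ∀ K ∈ T, IsCompact K

/-- The members that meet the disc of radius two stay in the disc of radius three. -/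
def Near (T : Set (Set ℂ)) : Prop := ∀ K ∈ T, (K ∩ closedBall 0 2).Nonempty → K ⊆ ball 0 3

/-- Chains through a point of `O` stay within distance `w`. -/
def Sm (T : Set (Set ℂ)) (O : Set ℂ) (w : ℝ) : Prop := ∀ z ∈ O, ¬ Joins T {z} (ball z w)ᶜ

/-- Any two points with a local arm are joined at cost at most `t`. -/
def Zon (T : Set (Set ℂ)) (z : ℂ) (r ε t : ℝ) : Prop :=
  ∀ ξ > (0 : ℝ), ∃ ξ' > (0 : ℝ), ∀ y ∈ Arm (Free ξ' T) (ball z (31 / 20 * r))ᶜ z r,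
    ∀ y' ∈ Arm (Free ξ' T) (ball z (31 / 20 * r))ᶜ z r, ∃ γ : Br, γ 0 = y ∧ γ 1 = y' ∧
      range γ ⊆ Free ξ T ∩ ball z (5 / 4 * r) ∧ Cov ε t (range γ)

/-- At every resolution the family `F` contains a free path. -/
def Via (T : Set (Set ℂ)) (F : Set Br) : Prop := ∀ ξ > (0 : ℝ), ∃ γ ∈ F, range γ ⊆ Free ξ T

/-- Crossings of the unit annulus, stopped at the outer circle. -/
def CrsB : Set Br := {γ | CrsG 0 1 γ ∧ range γ ⊆ closedBall 0 (31 / 20)}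

/-- Free crossings that meet exactly the cells `B` of the scale `r`. -/
def Skel (T : Set (Set ℂ)) (r : ℝ) (B : Finset (ℤ × ℤ)) : Prop :=
  Via T {γ ∈ CrsB | cells (r / 2) (range γ) = B}

/-- A macroscopic animal of the grid of mesh `h`. -/
def Ani (h : ℝ) (B : Finset (ℤ × ℤ)) : Prop :=
  (∃ c₀, Anim c₀ B) ∧ (∀ c ∈ B, ‖gp h c‖ ≤ 3) ∧ 1 ≤ 8 * h * B.card

/-- The members of `B` are at mutual distance at least `k`. -/
def Sep (k : ℝ) (B : Finset (ℤ × ℤ)) : Prop := ∀ a ∈ B, ∀ b ∈ B, a ≠ b → k ≤ dist a b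

/-- An obstacle: a core and small pieces. -/
def ob {ι : Type} (F : ι → Set ℂ) (𝒜 : ι → Set (Set ℂ)) (i : ι) : Set ℂ := F i ∪ ⋃₀ 𝒜 i

/-- A system of disjoint obstacles with pieces of diameter at most `w`. -/
structure Obs (w : ℝ) {ι : Type} (F : ι → Set ℂ) (𝒜 : ι → Set (Set ℂ)) : Prop where
  cF : ∀ i, IsCompact (F i)
  fin : ∀ i, (𝒜 i).Finite
  cP : ∀ i, ∀ P ∈ 𝒜 i, IsCompact P ∧ diam P ≤ w
  con : ∀ i, ∀ 𝒬 ⊆ 𝒜 i, IsPreconnected (F i ∪ ⋃₀ 𝒬)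
  disj : Pairwise fun i j => Disjoint (ob F 𝒜 i) (ob F 𝒜 j)

/-- The structure of the holes of the carpet of `T` in `V`. -/
structure Hol (V : Set ℂ) (T : Set (Set ℂ)) : Prop where
  jor : ∀ W ∈ cleIn2 T V, IsJordan W
  cl : ∀ W ∈ cleIn2 T V, closure W ⊆ V ∧ ∃ K ∈ T, closure W = fill (closure (cluster T K))
  disj : ∀ W ∈ cleIn2 T V, ∀ W' ∈ cleIn2 T V, W ≠ W' → Disjoint (closure W) (closure W')
  fin : ∀ s > (0 : ℝ), {W ∈ cleIn2 T V | s ≤ diam W}.Finite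
  mem : ∀ K ∈ T, ∃ W ∈ cleIn2 T V, K ⊆ closure W
  front : ∀ W ∈ cleIn2 T V, frontier W ⊆ carp T V

/-- The point `y` has an arm to the outside of `V` at the resolution `ξ`. -/
def Out (T : Set (Set ℂ)) (V : Set ℂ) (ξ : ℝ) (y : ℂ) : Prop := ∃ w ∉ V, JoinedIn (Free ξ T) y w

/-! ### Events -/

/-- Expensive local connections. -/
def ZB (z : ℂ) (r ε t : ℝ) : Set (Cfg KC) := {S | ¬ Zle (sets S) z r ε t}

/-- A cheap crossing. -/
def NE (z : ℂ) (r ε t : ℝ) : Set (Cfg KC) := {S | Nle (sets S) z r ε t}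

/-- A crossing that hugs the big loops. -/
def BE (z : ℂ) (r δ : ℝ) : Set (Cfg KC) := {S | BB (sets S) z r δ}

/-- No enclosing loop. -/
def NoCE (z : ℂ) (ρ : ℝ) : Set (Cfg KC) := {S | NoC (sets S) z ρ}

/-- An event that is an outside event for all discs far from `z`. -/
def FarE (z : ℂ) (s : ℝ) (E : Set (Cfg KC)) : Prop :=
  MeasurableSet E ∧ ∀ (z' : ℂ) (ρ : ℝ), 0 < ρ → s + 10 * ρ ≤ dist z z' → OutE z' ρ E

/-- Expensive global connections at the level `c`. -/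
def GZ (c R ε t : ℝ) : Set (Cfg (KC × ℝ)) :=
  {S | Near (sets (lev c S)) ∧ ¬ ZleA (sets (lev c S)) (ball 0 R)ᶜ 0 1 ε t}

/-- A cheap global crossing at the level `c`. -/
def GN (c R ε t : ℝ) : Set (Cfg (KC × ℝ)) := {S | NleA (sets (lev c S)) (ball 0 R)ᶜ ε t}

/-- A global hugging crossing at the level `c`. -/
def GH (c R δ : ℝ) : Set (Cfg (KC × ℝ)) :=
  {S | Near (sets (lev c S)) ∧ BBA (sets (lev c S)) (ball 0 R)ᶜ δ}

/-- The labelled configuration made of rooted loops and extra loops. -/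
noncomputable def Phi (c₀ R : ℝ) (p : Cfg Lp × Cfg (KC × ℝ)) : Cfg (KC × ℝ) :=
  ((p.1.map fun l => trB (lp l).2).res (inK (ball 0 R))).map (fun K => (K, c₀)) ∪ p.2

/-- The interpolating model: intensity `c₁` for the loops of diameter at least `R / 25` and `c`
for the others. -/
noncomputable def mdl (ν : Measure Br) (L c c₁ R : ℝ) : Measure KC :=
  ((muK ν).restrict (inK (ball 0 (10 * L)))).withDensity
    fun K => if R / 25 ≤ diam (K : Set ℂ) then ENNReal.ofReal c₁ else ENNReal.ofReal c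

/-- Loops of intermediate size that meet the disc of radius `4 r`. -/
def midK (z : ℂ) (r g R : ℝ) : Set KC := hitK (ball z (4 * r)) ∩ bigK g ∩ (bigK (R / 25))ᶜ

/-- Small loops in the disc of radius `5 r`. -/
def locK (z : ℂ) (r g : ℝ) : Set KC := inK (ball z (5 * r)) ∩ (bigK g)ᶜ

/-- The cell `b` of the scale `R` sees a hugging crossing or a cheap crossing of a cell of the
scale `r`. -/
def badA (L R r δ ε u : ℝ) (S : Cfg KC) (b : ℤ × ℤ) : Prop :=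
  NoC (sets S) (gp (R / 2) b) (L * R) ∧ (BB (sets S) (gp (R / 2) b) R (δ * R) ∨
    ∃ c, dist (gp (r / 2) c) (gp (R / 2) b) ≤ 3 / 2 * R ∧ NoC (sets S) (gp (r / 2) c) (L * r) ∧
      Nle (sets S) (gp (r / 2) c) r ε u)

/-- The cell `b` of the scale `R` sees bad small loops or too many intermediate loops. -/
def badC (R r g : ℝ) (n : ℕ) (G : ℤ × ℤ → Set (Cfg KC)) (S : Cfg KC) (b : ℤ × ℤ) : Prop :=
  ∃ c, dist (gp (r / 2) c) (gp (R / 2) b) ≤ 3 / 2 * R ∧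
    (S.res (locK (gp (r / 2) c) r g) ∉ G c ∨ ¬ (S.pts ∩ midK (gp (r / 2) c) r g R).encard ≤ n)

/-- More than a quarter of the cells of some macroscopic animal are bad. -/
def Many (h : ℝ) (bad : ℤ × ℤ → Prop) : Prop :=
  ∃ B : Finset (ℤ × ℤ), Ani h B ∧ B.card < 4 * {c | c ∈ B ∧ bad c}.ncard

/-! ### Properties of a level -/

/-- Subcriticality. -/
def SubP (ν : Measure Br) (c : ℝ) : Prop :=
  (∀ R : ℝ, ∀ᵐ S ∂soup ν c (ball 0 R), Tame (sets S) ∧ SubT (sets S)) ∧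
  ∀ A : ℝ, ∃ C : ℝ, ∀ (z : ℂ) (η s : ℝ), 0 < η → 1 ≤ s →
    PP (ENNReal.ofReal c • (muK ν).restrict (bigK η)ᶜ)
      {S | Joins (sets S) (closedBall z η) (ball z (s * η))ᶜ} ≤ ENNReal.ofReal (C * s ^ (-A))

/-- Tightness of the connection cost, at the level `c₀` and slightly above. -/
def TightU (ν : Measure Br) (κ L c₀ : ℝ) (a : ℝ → ℝ) : Prop :=
  ∀ lam > (0 : ℝ), ∀ p : ℝ≥0∞, p ≠ 0 → ∃ C : ℝ, ∃ ε₀ > (0 : ℝ), ∀ ε ∈ Ioo 0 ε₀, ∃ c' > c₀,
    ∀ c ∈ Icc c₀ c', Rare ν κ c lam L 0 1 (ZB 0 1 ε (C * a ε)) p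

/-- Polynomial tails of the connection cost. -/
def TailU (ν : Measure Br) (κ L c₀ : ℝ) (a : ℝ → ℝ) : Prop :=
  ∀ lam > (0 : ℝ), ∀ α : ℕ, ∃ A : ℝ, ∃ ε₁ > (0 : ℝ), ∀ ε ∈ Ioo 0 ε₁, ∃ c' > c₀,
    ∀ c ∈ Icc c₀ c', ∀ t : ℝ, 1 ≤ t →
      Rare ν κ c lam L 0 1 (ZB 0 1 ε (t * a ε)) (ENNReal.ofReal (A / t ^ α))

/-- Cheap crossings are rare. -/
def LowN (ν : Measure Br) (κ L c : ℝ) (a : ℝ → ℝ) : Prop :=
  ∀ lam > (0 : ℝ), ∀ p : ℝ≥0∞, p ≠ 0 → ∃ τ > (0 : ℝ), ∃ ε₀ > (0 : ℝ), ∀ ε ∈ Ioo 0 ε₀,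
    Rare ν κ c lam L 0 1 (NE 0 1 ε (τ * a ε)) p ∧
    soup ν c (ball 0 (10 * L)) (NE 0 1 ε (τ * a ε)) ≤ p

/-- Hugging crossings are rare. -/
def RareB (ν : Measure Br) (κ L c : ℝ) : Prop :=
  ∀ lam > (0 : ℝ), ∀ p : ℝ≥0∞, p ≠ 0 → ∃ δ ∈ Ioc (0 : ℝ) (1 / 2),
    Rare ν κ c lam L 0 1 (BE 0 1 δ) p

/-- Crossings of typical cost exist with positive probability. -/
def UpN (ν : Measure Br) (L c : ℝ) (a : ℝ → ℝ) : Prop :=
  ∃ p : ℝ≥0∞, p ≠ 0 ∧ ∃ C : ℝ, ∃ ε₀ > (0 : ℝ), ∀ ε ∈ Ioo 0 ε₀,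
    p ≤ soup ν c (ball 0 (10 * L)) (NE 0 1 ε (C * a ε))

/-- All that is known on the level `c`. -/
structure Full (ν : Measure Br) (κ L c θ : ℝ) (a : ℝ → ℝ) : Prop where
  nrm : Nrm a θ
  one : 1 < θ
  sub : SubP ν c
  tail : TailU ν κ L c a
  low : LowN ν κ L c a
  hug : RareB ν κ L c
  up : UpN ν L c a

/-- The standing assumptions. -/
structure Env (ν : Measure Br) (κ L : ℝ) (β : Measure TP) (Θ : ℝ → ℝ) : Prop where
  br : IsBridge ν
  kap : 1 < κ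
  str : Str ν L β
  ucs : UCS ν κ L β
  all : AllL ν Θ

/-! ### Elementary facts -/

theorem cpt_sets (S : Cfg KC) : Cpt (sets S) := by
  rintro _ ⟨K, -, rfl⟩
  exact K.isCompact

theorem Via.mono {T T' : Set (Set ℂ)} {F F' : Set Br} (h : Via T' F) (hT : T ⊆ T') (hF : F ⊆ F') :
    Via T F' := fun ξ hξ => by
  obtain ⟨γ, h1, h2⟩ := h ξ hξ
  exact ⟨γ, hF h1, h2.trans (Free_mono le_rfl hT)⟩

/-- The pigeonhole principle for free paths. -/
theorem Via.pigeon {T : Set (Set ℂ)} {F : Set Br} {β : Type*} (h : Via T F) (f : Br → β)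
    (hf : (f '' F).Finite) : ∃ b, Via T {γ ∈ F | f γ = b} := by
  by_contra hn
  simp only [Via, not_exists, not_forall] at hn
  choose ξ hξ hn using hn
  obtain ⟨γ₀, h₀, -⟩ := h 1 one_pos
  obtain ⟨b, -, hb⟩ := exists_min_image (f '' F) ξ hf ⟨_, γ₀, h₀, rfl⟩
  obtain ⟨γ, h1, h2⟩ := h (ξ b) (hξ b)
  exact hn (f γ) γ ⟨⟨h1, rfl⟩, h2.trans (Free_mono (hb _ ⟨γ, h1, rfl⟩) Subset.rfl)⟩

theorem cleIn2_ins (T : Set (Set ℂ)) (V : Set ℂ) : cleIn2 (ins V T) V = cleIn2 T V := by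
  have h : {K ∈ ins V T | K ⊆ V} = {K ∈ T | K ⊆ V} := by
    ext K
    simp [ins]
  have h2 : outers (ins V T) V = outers T V := by
    ext W
    simp only [outers, mem_ofPred_eq, h]
    simp only [ins, mem_ofPred_eq, and_assoc, and_self_left]
  simp only [cleIn2, h2]

theorem carp_ins (T : Set (Set ℂ)) (V : Set ℂ) : carp (ins V T) V = carp T V := by
  simp only [carp, cleIn2_ins]

theorem measurable_Phi (c₀ R : ℝ) : Measurable (Phi c₀ R) :=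
  Measurable.cfgUnion (((measurable_cfgMap (by fun_prop)).comp
    ((measurable_res (isOpen_inK isOpen_ball).measurableSet).comp
      (measurable_cfgMap (by fun_prop)))).comp measurable_fst) measurable_snd

end Pool.Agent.P.MP_d66c6d_pr
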