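import Pool.Agent.P.MP_d66c6d_pr.G.IfaceX
import Pool.Agent.P.MP_d66c6d_pr.S.Iface2
import Pool.Agent.P.MP_d66c6d_pr.S.Iface
import Pool.Agent.P.MP_d66c6d_pr.F.Iface

/-! Step SUB of the carpet project. -/

namespace Pool.Agent.P.MP_d66c6d_pr

open MeasureTheory ProbabilityTheory Set Metric Filter Topology
open scoped ENNReal

namespace SubA

theorem sets_small (δ : ℝ) (S : Cfg KC) :
    sets (S.res (bigK δ)ᶜ) = {K ∈ sets S | diam K < δ} := by
  ext A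
  constructor
  · rintro ⟨K, ⟨h1, h2⟩, rfl⟩
    exact ⟨⟨K, h1, rfl⟩, not_le.1 h2⟩
  · rintro ⟨⟨K, h1, rfl⟩, h2⟩
    exact ⟨K, ⟨h1, not_le.2 h2⟩, rfl⟩

theorem smul_res_le (c : ℝ≥0∞) (μ : Measure KC) (A : Set KC) : c • μ.restrict A ≤ c • μ :=
  Measure.le_iff'.2 fun s => by
    simp only [Measure.smul_apply, smul_eq_mul]
    exact mul_le_mul_right (Measure.le_iff'.1 Measure.restrict_le_self s) c

theorem tame {S : Cfg KC} {R : ℝ} (h1 : LF stdA S) (h2 : ∀ K ∈ S.pts, K ∈ inK (ball 0 R))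
    (h3 : ∀ K ∈ S.pts, IsPathConnected (K : Set ℂ)) : Tame (sets S) := by
  refine ⟨?_, fun ξ hξ => ?_⟩
  · rintro _ ⟨K, hK, rfl⟩
    obtain ⟨j, hj⟩ := mem_iUnion.1 (h1.1 hK)
    exact ⟨K.isCompact, h3 K hK, lt_of_lt_of_le (by positivity) hj.2⟩
  · obtain ⟨j, hj⟩ := exists_nat_ge (max R (1 / ξ))
    have e1 : R ≤ (j : ℝ) + 1 := by linarith [le_max_left R (1 / ξ)]
    have e2 : 1 / ((j : ℝ) + 1) ≤ ξ := by
      rw [div_le_iff₀ (by positivity)]
      have : 1 / ξ ≤ (j : ℝ) + 1 := by linarith [le_max_right R (1 / ξ)]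
      rw [div_le_iff₀ hξ] at this
      linarith
    refine ((h1.2 j).image fun K : KC => (K : Set ℂ)).subset ?_
    rintro _ ⟨⟨K, hK, rfl⟩, h⟩
    exact ⟨K, ⟨hK, (h2 K hK).trans (ball_subset_ball e1), e2.trans h⟩, rfl⟩

theorem subT {S : Cfg KC} {R : ℝ} (h1 : Blob S) (h2 : ∀ K ∈ S.pts, K ∈ inK (ball 0 R)) :
    SubT (sets S) := by
  intro ρ hρ
  obtain ⟨δ, hδ, h⟩ := h1 R ρ hρ
  refine ⟨δ, hδ, fun K hK hd x hx y hy => ?_⟩
  have h3 := h K (by rw [sets_small]; exact ⟨hK, hd⟩) x hx (by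
    obtain ⟨L, hL, rfl⟩ := hK
    exact (mem_ball_zero_iff.1 (h2 L hL hx)).le)
  rw [sets_small] at h3
  have := h3 hy
  rw [mem_ball, dist_comm] at this
  exact this.le

/-- A stretched exponential beats every power. -/
theorem decay {a : ℝ} (ha : 0 < a) (A : ℝ) : ∃ D : ℝ, 0 ≤ D ∧ ∀ s : ℝ, 1 ≤ s →
    Real.exp (-a * (s / 2) ^ (1 / 4 : ℝ)) ≤ D * s ^ (-A) := by
  obtain ⟨n, hn⟩ := exists_nat_ge A
  refine ⟨2 ^ n * ((4 * n).factorial / a ^ (4 * n)), by positivity, fun s hs => ?_⟩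
  have hs0 : 0 < s := by linarith
  set u : ℝ := (s / 2) ^ (1 / 4 : ℝ) with hu
  have hu0 : 0 < u := Real.rpow_pos_of_pos (by linarith) _
  have hu4 : u ^ 4 = s / 2 := by
    rw [hu, ← Real.rpow_natCast, ← Real.rpow_mul (by linarith)]
    norm_num
  have e1 : s ^ A ≤ 2 ^ n * u ^ (4 * n) := by
    calc s ^ A ≤ s ^ (n : ℝ) := Real.rpow_le_rpow_of_exponent_le hs hn
      _ = (2 * u ^ 4) ^ n := by rw [Real.rpow_natCast, hu4]; congr 1; ring
      _ = _ := by rw [mul_pow, ← pow_mul]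
  have e2 := Real.pow_div_factorial_le_exp (a * u) (by positivity) (4 * n)
  have e3 : u ^ (4 * n) ≤ (4 * n).factorial / a ^ (4 * n) * Real.exp (a * u) := by
    rw [div_le_iff₀ (by positivity), mul_pow] at e2
    rw [div_mul_eq_mul_div, le_div_iff₀ (by positivity)]
    linarith
  have hA : 0 < s ^ A := Real.rpow_pos_of_pos hs0 _
  rw [Real.rpow_neg hs0.le, ← div_eq_mul_inv, le_div_iff₀ hA, neg_mul, Real.exp_neg,
    inv_mul_le_iff₀ (Real.exp_pos _)]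
  calc s ^ A ≤ 2 ^ n * u ^ (4 * n) := e1
    _ ≤ 2 ^ n * ((4 * n).factorial / a ^ (4 * n) * Real.exp (a * u)) := by gcongr
    _ = _ := by ring

theorem small (A : ℝ) : ∃ D : ℝ, 0 ≤ D ∧ ∀ s : ℝ, 1 ≤ s → s ≤ 2 → 1 ≤ D * s ^ (-A) := by
  obtain ⟨n, hn⟩ := exists_nat_ge A
  refine ⟨2 ^ n, by positivity, fun s hs h2 => ?_⟩
  have hs0 : 0 < s := by linarith
  rw [Real.rpow_neg hs0.le, ← div_eq_mul_inv, le_div_iff₀ (Real.rpow_pos_of_pos hs0 _), one_mul]
  calc s ^ A ≤ s ^ (n : ℝ) := Real.rpow_le_rpow_of_exponent_le hs hn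
    _ = s ^ n := Real.rpow_natCast s n
    _ ≤ 2 ^ n := pow_le_pow_left₀ hs0.le h2 n

end SubA

open SubA in
theorem p_SUB (hSUBX : S_SUBX) (hBLOB : S_BLOB) (hSUBQ : S_SUBQ) (hJN : S_JN) (hMUK : S_MUK) (hPPO : S_PPO) :
    S_SUB := by
  intro ν hν c θ _ hL
  have hS := (hSUBX ν hν c θ hL).1
  have hc : ENNReal.ofReal c ≠ ∞ := ENNReal.ofReal_ne_top
  have key : ∀ B : Set KC, MeasurableSet B →
      ∀ᵐ S ∂PP (ENNReal.ofReal c • (muK ν).restrict B), ∀ K ∈ S.pts, K ∈ B := fun B hB => by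
    have := ((hJN.2 ν hν _ hc).1 _ (smul_res_le _ (muK ν) B)).1
    exact (hPPO KC _ inferInstance).2.2.2.2.2.1 _ (Measure.ae_smul_measure (ae_restrict_mem hB) _)
  refine ⟨fun R => ?_, fun A => ?_⟩
  · have hle := smul_res_le (ENNReal.ofReal c) (muK ν) (inK (ball 0 R))
    obtain ⟨h1, h2, -⟩ := (hJN.2 ν hν _ hc).1 _ hle
    have h3 := (hBLOB ν hν _ hc hS).2.2 _ hle
    have h4 := key _ (isOpen_inK (isOpen_ball (x := (0 : ℂ)) (ε := R))).measurableSet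
    have : PathConnectedSpace unitInterval :=
      isPathConnected_iff_pathConnectedSpace.1
        ((convex_Icc (0 : ℝ) 1).isPathConnected (nonempty_Icc.2 zero_le_one))
    have h5 : ∀ᵐ K : KC ∂muK ν, IsPathConnected (K : Set ℂ) :=
      (hMUK ν hν).2.2.2.2.2.2.1 _ (ae_of_all _ fun l =>
        isPathConnected_range (lp l).2.continuous)
    have h6 := (hPPO KC (ENNReal.ofReal c • (muK ν).restrict (inK (ball 0 R)))
      inferInstance).2.2.2.2.2.1 _ (Measure.ae_smul_measure (ae_restrict_of_ae h5) _)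
    filter_upwards [h2, h3, h4, h6] with S s2 s3 s4 s6
    exact ⟨tame s2 s4 s6, subT s3 s4⟩
  · obtain ⟨a, C, ha, hC⟩ := hSUBQ ν hν _ hc hS
    obtain ⟨D, hD, hD'⟩ := decay ha A
    obtain ⟨E, hE, hE'⟩ := small A
    refine ⟨|C| * D + E, fun z η s hη hs => ?_⟩
    have hs0 : 0 ≤ s ^ (-A) := Real.rpow_nonneg (by linarith) _
    rcases le_total s 2 with h2 | h2
    · refine prob_le_one.trans (ENNReal.one_le_ofReal.2 ((hE' s hs h2).trans ?_))
      have : 0 ≤ |C| * D := by positivity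
      gcongr
      linarith
    · have hB : MeasurableSet (bigK η)ᶜ :=
        (measurableSet_bigK η).compl
      have h4 := key _ hB
      have h5 := hC _ (smul_res_le (ENNReal.ofReal c) (muK ν) (bigK η)ᶜ) z (s * η / 2) η
        (by positivity) hη
      refine (measure_mono_ae ?_).trans (h5.trans (ENNReal.ofReal_le_ofReal ?_))
      · filter_upwards [h4] with S s4 hJ
        refine Joins.mono hJ ?_ (closedBall_subset_closedBall (by nlinarith)) ?_
        · rintro _ ⟨K, hK, rfl⟩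
          exact ⟨K, ⟨hK, s4 K hK⟩, rfl⟩
        · rw [show 2 * (s * η / 2) = s * η by ring]
      · rw [show s * η / 2 / η = s / 2 by field_simp]
        calc C * Real.exp (-a * (s / 2) ^ (1 / 4 : ℝ))
            ≤ |C| * Real.exp (-a * (s / 2) ^ (1 / 4 : ℝ)) := by gcongr; exact le_abs_self C
          _ ≤ |C| * (D * s ^ (-A)) := by gcongr; exact hD' s hs
          _ ≤ _ := by nlinarith [mul_nonneg hE hs0]

end Pool.Agent.P.MP_d66c6d_pr
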