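import Pool.Agent.P.MP_d66c6d_pr.G.IfaceX
import Pool.Agent.P.MP_d66c6d_pr.U.Iface3
import Pool.Agent.P.MP_d66c6d_pr.U.Iface
import Pool.Agent.P.MP_d66c6d_pr.U.Iface2
import Pool.Agent.P.MP_d66c6d_pr.F.Iface

/-! Step UCS of the carpet project. -/

namespace Pool.Agent.P.MP_d66c6d_pr

open MeasureTheory ProbabilityTheory Set Metric Filter Topology
open scoped ENNReal

namespace UcsA

theorem ind_congr {E : Set (Cfg KC)} {S T : Cfg KC} (h1 : S ∈ E → T ∈ E) (h2 : T ∈ E → S ∈ E) :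
    E.indicator (1 : Cfg KC → ℝ≥0∞) S = E.indicator 1 T := by
  by_cases h : S ∈ E
  · rw [indicator_of_mem h, indicator_of_mem (h1 h)]; rfl
  · rw [indicator_of_notMem h, indicator_of_notMem fun h' => h (h2 h')]

theorem sph {R : ℝ} {K L : Set ℂ} (hK : IsPreconnected K) (e : K \ ball 0 R = L \ ball 0 R)
    (h1 : (K \ ball 0 R).Nonempty) (h2 : (K ∩ ball 0 R).Nonempty) :
    (K ∩ closedBall 0 R).Nonempty ∧ (L ∩ closedBall 0 R).Nonempty := by
  obtain ⟨a, a1, a2⟩ := h1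
  obtain ⟨b, b1, b2⟩ := h2
  obtain ⟨w, w1, w2⟩ := hK.intermediate_value b1 a1 (f := fun z => dist z 0) (by fun_prop)
    ⟨(mem_ball.1 b2).le, not_lt.1 a2⟩
  exact ⟨⟨w, w1, w2.le⟩, w, (e.le ⟨w1, not_lt.2 w2.ge⟩).1, w2.le⟩

theorem ole_swap {ρ : ℝ} {K L : KC} (S : Cfg KC) (hK : IsPreconnected (K : Set ℂ))
    (hL : IsPreconnected (L : Set ℂ))
    (e : (K : Set ℂ) \ ball 0 (10 * ρ) = (L : Set ℂ) \ ball 0 (10 * ρ)) :
    OLe 0 ρ (sets (insert K S)) (sets (insert L S)) := by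
  rintro _ ⟨M, rfl | hM, rfl⟩ hW
  · refine ⟨L, ⟨L, Or.inl rfl, rfl⟩, e, ?_⟩
    have h1 : ((M : Set ℂ) \ ball 0 (10 * ρ)).Nonempty := Set.not_subset.1 hW
    by_cases h2 : ((M : Set ℂ) ∩ ball 0 (10 * ρ)).Nonempty
    · exact Or.inr (sph hK e h1 h2)
    by_cases h3 : ((L : Set ℂ) ∩ ball 0 (10 * ρ)).Nonempty
    · exact Or.inr (sph hL e.symm (e ▸ h1) h3).symm
    exact Or.inl (Subset.antisymm (fun z hz => (e.le ⟨hz, fun h => h2 ⟨z, hz, h⟩⟩).1)
      fun z hz => (e.ge ⟨hz, fun h => h3 ⟨z, hz, h⟩⟩).1)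
  · exact ⟨M, ⟨M, Or.inr hM, rfl⟩, rfl, Or.inl rfl⟩

theorem outK {ρ : ℝ} {F : Set (Cfg KC)} (hF : OutE 0 ρ F) :
    OutK (ball 0 (10 * ρ)) (F.indicator 1) := by
  refine ⟨fun S T hT => ?_, fun K L S hK hL e => ind_congr
    (hF.2 _ _ (ole_swap S hK hL e) (ole_swap S hL hK e.symm))
    (hF.2 _ _ (ole_swap S hL hK e.symm) (ole_swap S hK hL e))⟩
  have h1 : OLe 0 ρ (sets (S ∪ T)) (sets S) := by
    rintro _ ⟨M, hM | hM, rfl⟩ hW
    · exact ⟨M, ⟨M, hM, rfl⟩, rfl, Or.inl rfl⟩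
    · exact absurd (hT M hM) hW
  have h2 : OLe 0 ρ (sets S) (sets (S ∪ T)) := by
    rintro _ ⟨M, hM, rfl⟩ -
    exact ⟨M, ⟨M, Or.inl hM, rfl⟩, rfl, Or.inl rfl⟩
  exact ind_congr (hF.2 _ _ h1 h2) (hF.2 _ _ h2 h1)

/-- All members have a far point. -/
def Far (l : Cfg KC) : Prop := ∀ K ∈ l.pts, ∃ a ∈ (K : Set ℂ), 3 ≤ dist a 0

/-- Covered points of the small disc. -/
def Cv (l l' : Cfg KC) : Prop :=
  ∀ z ∈ ball (0 : ℂ) 2, ∀ K ∈ l.pts, z ∈ (K : Set ℂ) → ∃ K' ∈ l'.pts, z ∈ (K' : Set ℂ)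

theorem tt_sub {l l' : Cfg KC} (S : Cfg KC) (h : Far l') (hc : Cv l l') {ξ : ℝ}
    (hξ : ξ ≤ 1 / 25) :
    TT ξ (sets (l ∪ S)) ∩ ball 0 (2 * 1) ⊆ TT ξ (sets (l' ∪ S)) ∩ ball 0 (2 * 1) := by
  rintro z ⟨hz, hz'⟩
  refine ⟨?_, hz'⟩
  rw [mul_one] at hz'
  obtain ⟨_, ⟨K, hK | hK, rfl⟩, h1, h2⟩ := mem_TT.1 hz
  · obtain ⟨K', h3, h4⟩ := hc z hz' K hK h2
    obtain ⟨a, a1, a2⟩ := h K' h3
    refine mem_TT.2 ⟨_, ⟨K', Or.inl h3, rfl⟩,
      le_trans ?_ (dist_le_diam_of_mem K'.isCompact.isBounded a1 h4), h4⟩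
    rw [mem_ball] at hz'
    linarith [dist_triangle a z 0]
  · exact mem_TT.2 ⟨_, ⟨K, Or.inr hK, rfl⟩, h1, h2⟩

theorem ind_eq {E : Set (Cfg KC)} (hE : LocE 0 1 E) {l l' : Cfg KC} (S : Cfg KC) (h : Far l)
    (h' : Far l') (hc : Cv l l') (hc' : Cv l' l) :
    E.indicator (1 : Cfg KC → ℝ≥0∞) (l ∪ S) = E.indicator 1 (l' ∪ S) := by
  have e : Same (ball 0 (2 * 1)) (1 / 25) (sets (l ∪ S)) (sets (l' ∪ S)) := fun ξ _ hξ =>
    (tt_sub S h' hc hξ).antisymm (tt_sub S h hc' hξ)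
  exact ind_congr (hE.2 _ _ e) (hE.2 _ _ e.symm)

/-- Fattening. -/
noncomputable def fat (K : KC) : KC := K ⊔ ⟨⟨{3}, isCompact_singleton⟩, singleton_nonempty _⟩

theorem coe_fat (K : KC) : (fat K : Set ℂ) = (K : Set ℂ) ∪ {3} := rfl

theorem measurable_fat : Measurable fat := Measurable.supKC measurable_id measurable_const

theorem far_fat (l : Cfg KC) : Far (l.map fat) := by
  rintro _ ⟨K, -, rfl⟩
  exact ⟨3, Or.inr rfl, by simp⟩

theorem cv_fat (l : Cfg KC) : Cv (l.map fat) l := by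
  rintro z hz _ ⟨K, hK, rfl⟩ (h | h)
  · exact ⟨K, hK, h⟩
  · rw [mem_singleton_iff.1 h] at hz
    norm_num at hz

theorem cv_fat' (l : Cfg KC) : Cv l (l.map fat) := fun _ _ K hK h =>
  ⟨_, ⟨K, hK, rfl⟩, Or.inl h⟩

theorem Cv.trans {l l' l'' : Cfg KC} (h : Cv l l') (h' : Cv l' l'') : Cv l l'' :=
  fun z hz K hK e => by
    obtain ⟨K', h1, h2⟩ := h z hz K hK e
    exact h' z hz K' h1 h2

theorem locK {E : Set (Cfg KC)} (hE : LocE 0 1 E) (P : Measure (Cfg KC)) :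
    LocK (ball 0 2) fun l => ∫⁻ S, E.indicator 1 (l.map fat ∪ S) ∂P := by
  have key : ∀ l l' : Cfg KC, Cv l l' → Cv l' l →
      ∫⁻ S, E.indicator (1 : Cfg KC → ℝ≥0∞) (l.map fat ∪ S) ∂P =
        ∫⁻ S, E.indicator 1 (l'.map fat ∪ S) ∂P := fun l l' h h' => lintegral_congr fun S =>
    ind_eq hE S (far_fat _) (far_fat _) ((cv_fat _).trans (h.trans (cv_fat' _)))
      ((cv_fat _).trans (h'.trans (cv_fat' _)))
  refine ⟨fun S T hT => key _ _ ?_ fun z _ K hK e => ⟨K, Or.inl hK, e⟩,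
    fun K L L' S _ _ _ e => key _ _ ?_ ?_⟩
  · rintro z hz K (hK | hK) e
    · exact ⟨K, hK, e⟩
    · exact absurd hz (Set.disjoint_left.1 (hT K hK) e)
  · rintro z hz M (rfl | hM) h
    · rcases (e.le ⟨h, hz⟩).1 with h | h
      · exact ⟨L, Or.inl rfl, h⟩
      · exact ⟨L', Or.inr (Or.inl rfl), h⟩
    · exact ⟨M, Or.inr (Or.inr hM), h⟩
  · rintro z hz M (rfl | rfl | hM) h
    · exact ⟨K, Or.inl rfl, (e.ge ⟨Or.inl h, hz⟩).1⟩
    · exact ⟨K, Or.inl rfl, (e.ge ⟨Or.inr h, hz⟩).1⟩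
    · exact ⟨M, Or.inr hM, h⟩

theorem ae_wd {μ : Measure KC} {A : Set KC} (hA : MeasurableSet A) (f : KC → ℝ≥0∞) :
    ∀ᵐ K ∂(μ.restrict A).withDensity f, K ∈ A :=
  (withDensity_absolutelyContinuous _ _).ae_le (ae_restrict_mem hA)

/-- The reference measure bounds the mean of the strand functional. -/
theorem ref_eq (hRJ : S_RJ) {E : Set (Cfg KC)} (hE : LocE 0 1 E) {β : Measure TP}
    [IsFiniteMeasure β] (hβ : ∀ᵐ p ∂β, 3 ≤ dist (p.2 0) 0) (P : Measure (Cfg KC)) [SFinite P]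
    (j : ℕ) : ∫⁻ S, RJ (β.map fun p => trB p.2) j {T | T.map fat ∪ S ∈ E} ∂P =
      (P.prod (Measure.pi fun _ : Fin j => β)).map (fun q => q.1 ∪ arcs q.2) E := by
  have t : Measurable fun p : TP => trB p.2 := by fun_prop
  have r := hRJ.2.2 _ β inferInstance
  have e : RJ (β.map fun p => trB p.2) j = (Measure.pi fun _ : Fin j => β).map arcs := by
    rw [← r.2.2.2.2.2.2 _ _ t, r.2.2.2.2.1 inferInstance,
      Measure.map_map (measurable_cfgMap t) measurable_rng]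
    congr 1
    funext η
    exact Cfg.ext (range_comp (fun p : TP => trB p.2) η).symm
  have mU : Measurable fun q : Cfg KC × (Fin j → TP) => q.1 ∪ arcs q.2 := by fun_prop
  rw [Measure.map_apply mU hE.1, Measure.prod_apply (mU hE.1), e]
  refine lintegral_congr fun S => ?_
  have mT : MeasurableSet {T : Cfg KC | T.map fat ∪ S ∈ E} :=
    Measurable.cfgUnion (measurable_cfgMap measurable_fat) measurable_const hE.1
  rw [Measure.map_apply measurable_arcs mT]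
  refine measure_congr (((ae_all_iff (ι := Fin j)).2 fun i =>
    (Measure.quasiMeasurePreserving_eval (fun _ : Fin j => β) i).ae hβ).mono fun η hη => ?_)
  have h1 : Far (arcs η) := by
    rintro _ ⟨i, rfl⟩
    exact ⟨_, ⟨0, rfl⟩, hη i⟩
  have h2 := ind_eq hE S (far_fat _) h1 (cv_fat _) (cv_fat' _)
  rw [Cfg.union_comm (arcs η)] at h2
  exact propext ((indicator_eq_one_iff_mem ℝ≥0∞).symm.trans
    (h2 ▸ indicator_eq_one_iff_mem ℝ≥0∞))

end UcsA

open UcsA in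
theorem p_UCS (hSUPT : S_SUPT) (hONEK : S_ONEK) (hDQF : S_DQF) (hPAC : S_PAC) (hRHO : S_RHO) (hRJ : S_RJ) (hUM : S_UM) (hPPO : S_PPO) (hMUK : S_MUK) :
    S_UCS := by
  intro ν hν
  have := hν.prob
  have := (hMUK ν hν).2.1
  obtain ⟨A, hA, hS⟩ := hSUPT ν hν
  obtain ⟨L₀, hL₀, hρ⟩ := (hRHO ν hν A hA).2 2⁻¹ (by simp)
  obtain ⟨L, hL10, hLL⟩ : ∃ L : ℝ, 10 ≤ L ∧ 2 * L₀ ≤ L := ⟨_, le_max_left _ _, le_max_right _ _⟩
  have hL : 0 < L := by linarith
  have hβ := hρ 0 L 2 hL ((le_div_iff₀ (by linarith)).2 hLL)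
  have hβf : IsFiniteMeasure (rho ν A 0 L 2) := ⟨hβ.trans_lt (by simp)⟩
  have hβr : ∀ᵐ p ∂rho ν A 0 L 2, p ∈ rset 0 L 2 := by
    have mr := ((hUM 0 L).2.2.2.2.2.2.2.2.2.2.2 2).1
    refine Measure.ae_smul_measure ?_ A
    rw [show wr 0 L 2 = (rset 0 L 2).indicator _ from rfl, withDensity_indicator mr]
    exact (withDensity_absolutelyContinuous _ _).ae_le (ae_restrict_mem mr)
  obtain ⟨κ, hκ, hH⟩ := hS 0 L hL
  refine ⟨κ, L, rho ν A 0 L 2, hκ, ⟨hL10, hβf, Measure.smul_absolutelyContinuous.trans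
    (withDensity_absolutelyContinuous _ _), hβr.mono fun p hp => ⟨fun h => ?_, fun h => ?_⟩⟩, ?_⟩
  · linarith [hp.1.1, mem_closedBall.1 h]
  · linarith [hp.2.1.1, mem_closedBall.1 h]
  intro lam hlam p hp
  obtain ⟨C, -, hC⟩ := (hMUK ν hν).2.2.2.1
  obtain ⟨d, hd, hP⟩ := hPAC (ENNReal.ofReal κ) (ENNReal.ofReal (C * (10 * L / (lam * L)) ^ 2)) p
    ENNReal.ofReal_ne_top ENNReal.ofReal_ne_top hp
  have hd2 : d / 2 ≠ 0 := ENNReal.div_ne_zero.2 ⟨hd, by simp⟩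
  obtain ⟨N, hN⟩ := ENNReal.exists_inv_two_pow_lt (a := d / 2 / 2)
    (ENNReal.div_ne_zero.2 ⟨hd2, by simp⟩)
  refine ⟨d / 2 / N, N, ENNReal.div_ne_zero.2 ⟨hd2, by simp⟩, fun c hc E hE hEN m hm F hF => ?_⟩
  rw [mul_one] at hm hF ⊢
  obtain ⟨V, f, hV, hVb, hWV, hf, hf1, hf2, rfl⟩ := hm
  replace hWV := ball_subset_closedBall.trans hWV
  have mW := (isOpen_inK (isOpen_ball (x := (0 : ℂ)) (ε := 10 * L))).measurableSet
  have mX := (isOpen_hitK (isOpen_ball (x := (0 : ℂ)) (ε := 3 * L))).measurableSet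
  have mB := measurableSet_bigK (lam * L)
  have mD := (isOpen_inK hV).measurableSet.diff mW
  have hfκ : ∀ K, f K ≤ ENNReal.ofReal κ * ENNReal.ofReal c := fun K => by
    rw [← ENNReal.ofReal_mul (by linarith)]; exact (hf1 K).2
  have hle : ∀ μ : Measure KC, μ.withDensity f ≤ ENNReal.ofReal κ • ENNReal.ofReal c • μ :=
    fun μ => by
      rw [smul_smul, ← withDensity_const]
      exact withDensity_mono (ae_of_all _ hfκ)
  have m1E : Measurable (E.indicator (1 : Cfg KC → ℝ≥0∞)) := measurable_one.indicator hE.1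
  have m2 : Measurable fun q : Cfg KC × Cfg KC =>
      E.indicator (1 : Cfg KC → ℝ≥0∞) (q.1.map fat ∪ q.2) :=
    m1E.comp (Measurable.cfgUnion ((measurable_cfgMap measurable_fat).comp measurable_fst)
      measurable_snd)
  set mi := ((muK ν).restrict (inK (ball 0 (10 * L)))).withDensity f with hmi
  obtain ⟨mH, lH, hFH, hsup⟩ := hH 2 (by linarith) _ (m2.lintegral_prod_right' (ν := PP mi))
    (locK hE _) _ rfl
  have h1 := hONEK ν hν 0 L κ hL hκ _ mH lH hsup V hV hWV _ f ENNReal.ofReal_ne_top hf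
    fun K => ⟨(hf1 K).1, hfκ K⟩
  have hfin := DqlA.fin (c := 0) hMUK hν hL hVb
  have h2 := hDQF 0 L _ mH lH _ (((muK ν).restrict ((inK V \ inK (ball 0 (10 * L))) \
    hitK (ball 0 (3 * L)))).withDensity f) mi
    ⟨((hle _) univ).trans_lt (ENNReal.mul_lt_top ENNReal.ofReal_lt_top
      (ENNReal.mul_lt_top ENNReal.ofReal_lt_top (measure_lt_top _ _)))⟩ inferInstance
    inferInstance h1 ((ae_wd (mD.diff mX) f).mono fun K hK => hK.2) (ae_wd mW f) _ _ m1E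
    (measurable_one.indicator hF.1) (outK hF)
    (((hPPO _ _ inferInstance).2.2.2.2.2.1 (fun K => K ∉ inK (ball 0 (10 * L)))
      (ae_add_measure_iff.2 ⟨(ae_wd (mD.inter mX) f).mono fun K hK => hK.1.2,
        (ae_wd (mD.diff mX) f).mono fun K hK => hK.1.2⟩)).mono fun l hl =>
      le_trans (le_of_eq (lintegral_congr fun S => ind_eq hE S (fun K hK => by
        obtain ⟨a, a1, a2⟩ := Set.not_subset.1 (hl K hK)
        rw [mem_ball, not_lt] at a2
        exact ⟨a, a1, by linarith⟩) (far_fat _) (cv_fat' _) (cv_fat _))) (hFH l))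
  have e0 : (muK ν).restrict (inK V \ inK (ball 0 (10 * L))) +
      (muK ν).restrict (inK (ball 0 (10 * L))) = (muK ν).restrict (inK V) := by
    rw [add_comm, ← Measure.restrict_inter_add_sdiff (inK V) mW,
      inter_eq_right.2 (show inK (ball 0 (10 * L)) ⊆ inK V from
        fun K hK => subset_trans hK hWV)]
  rw [hmi, ← withDensity_add_measure, ← withDensity_add_measure,
    Measure.restrict_inter_add_sdiff _ mX, e0, lintegral_indicator_one hF.1, ← hmi] at h2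
  have e1 : {S : Cfg KC | NoC (sets S) 0 L} = allND 0 L := Set.ext fun S => forall_mem_image
  refine le_trans (le_of_eq ?_) (h2.trans (mul_le_mul_left ?_ _))
  · rw [e1, inter_right_comm, ← Measure.restrict_apply (hE.1.inter hF.1),
      ← lintegral_indicator_one (hE.1.inter hF.1), inter_indicator_one]
    rfl
  have hK : rhoK ν A 0 L 2 univ ≤ 2⁻¹ := by
    rw [rhoK, Measure.map_apply (by fun_prop) MeasurableSet.univ]
    exact hβ
  obtain ⟨r1, r2⟩ := (hRJ.2.2 _ (rhoK ν A 0 L 2) inferInstance).2.2.2.1 hK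
  have mT : ∀ S : Cfg KC, MeasurableSet {T : Cfg KC | T.map fat ∪ S ∈ E} := fun S =>
    Measurable.cfgUnion (measurable_cfgMap measurable_fat) measurable_const hE.1
  have eΦ : ∀ (Q : Measure (Cfg KC)) (S : Cfg KC),
      ∫⁻ T, E.indicator (1 : Cfg KC → ℝ≥0∞) (T.map fat ∪ S) ∂Q = Q {T | T.map fat ∪ S ∈ E} :=
    fun Q S => (lintegral_indicator_one (mT S)).symm ▸ rfl
  have e2 : mi = ((muK ν).restrict (inK (ball 0 (10 * L)) ∩ bigK (lam * L))).withDensity f +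
      ENNReal.ofReal c • (muK ν).restrict (inK (ball 0 (10 * L)) \ bigK (lam * L)) := by
    rw [hmi, ← Measure.restrict_inter_add_sdiff _ mB, withDensity_add_measure,
      ← withDensity_const]
    congr 1
    exact withDensity_congr_ae ((ae_restrict_mem (mW.diff mB)).mono fun K hK =>
      hf2 K (not_le.1 hK.2))
  simp only [Cfg.union_empty]
  rw [lintegral_lintegral_swap m2.aemeasurable, e2]
  refine hP _ (ENNReal.ofReal c • (muK ν).restrict (inK (ball 0 (10 * L)) ∩ bigK (lam * L))) _ _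
    inferInstance ?_ (hle _) ?_ _ m2.lintegral_prod_left' (fun S => ?_) ?_
  · rw [← withDensity_const]
    exact withDensity_mono (ae_of_all _ fun K => (hf1 K).1)
  · rw [Measure.smul_apply, Measure.restrict_apply_univ, smul_eq_mul]
    exact (mul_le_of_le_one_left' (ENNReal.ofReal_le_one.2 hc.2)).trans
      (hC 0 _ _ (by linarith) (mul_pos hlam hL))
  · rw [eΦ]
    exact (measure_mono (subset_univ _)).trans r1
  rw [← smul_add, Measure.restrict_inter_add_sdiff _ mB]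
  simp only [eΦ]
  refine (lintegral_mono fun S => r2 N _ (mT S)).trans ?_
  have m3 : ∀ j, Measurable fun S : Cfg KC => RJ (rhoK ν A 0 L 2) j {T | T.map fat ∪ S ∈ E} :=
    fun j => by
      simp only [← eΦ]
      exact m2.lintegral_prod_left'
  rw [lintegral_add_right _ measurable_const, lintegral_const, measure_univ, mul_one,
    lintegral_finsetSum _ fun j _ => m3 j, ← ENNReal.add_halves d]
  refine add_le_add ((Finset.sum_le_card_nsmul _ _ (d / 2 / N) fun j hj => ?_).trans ?_)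
    ((mul_le_mul_right hN.le _).trans ENNReal.mul_div_le)
  · exact (ref_eq hRJ hE (hβr.mono fun p hp => by linarith [hp.1.1]) _ j).trans_le
      (hEN j (Finset.mem_range.1 hj).le)
  · rw [Finset.card_range, nsmul_eq_mul]
    exact ENNReal.mul_div_le

end Pool.Agent.P.MP_d66c6d_pr
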